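import Pool.Agent.Lib_helper52.BT.Hol

/-!
# MP_86b5a3_al: the terms `T_k(x, ℚ)` for subgroups of holomorphs

The definitions are in `Lib_helper52/BT/Defs.lean`, `Lib_helper52/BT/Terms.lean` and
`Lib_helper52/BT/HolDefs.lean`.
-/

open BurgheleaT

/-- Let `π` be a finitely generated group such that the intersection of the powers of the
augmentation ideal of `ℚ[π]` is zero, and `x` an element of any group whose centralizer has a
homomorphism to the holomorph `π ⋊ Aut(π)` that sends `x` to an element of infinite order. Then all
the terms `T_k(x, ℚ)` are zero and the class of the central extension is nilpotent. -/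
theorem Pool.Agent.Results.MP_86b5a3_al.HolomorphCriterion.result
    {π : Type*} [Group π] [Group.FG π] (hπ : AugSeparated π) {G : Type*} [Group G] (x : G)
    (f : Cen x →* Hol π) (hf : ¬ IsOfFinOrder (f (gen x))) : TermsVanish x :=
  termsVanish_hol hπ x f hf
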