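import Pool.Agent.Lib_helper52.BT.Main

/-!
# MP_86b5a3_al: the terms `T_k(x, ℚ)` and finite-dimensional representations of the centralizer

The definitions are in `Lib_helper52/BT/Defs.lean` and `Lib_helper52/BT/Terms.lean`.
-/

open BurgheleaT

/-- Let `x` be an element of any group. Suppose that for some `n` the centralizer of `x` has, for
every `m ≥ 1`, an `n`-dimensional representation `ρ` over some field (depending on `m`, of any
characteristic, possibly finite) with `ρ(x) ^ m ≠ 1`. Then all the terms `T_k(x, ℚ)` are zero; more
precisely the class of the central extension of the reduced centralizer is nilpotent. -/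
theorem Pool.Agent.Results.MP_86b5a3_al.RepresentationCriterion.result
    {G : Type*} [Group G] (x : G) (n : ℕ)
    (h : ∀ m : ℕ, 0 < m → ∃ (K : Type*) (_ : Field K)
      (ρ : Cen x →* Matrix.GeneralLinearGroup (Fin n) K), ρ (gen x) ^ m ≠ 1) :
    TermsVanish x :=
  termsVanish_of_reps x n h
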